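import Mathlib
import Pool.Agent.H57R2.AMSeries
import Pool.Agent.Y518.AM.Dir

/-!
The Dirichlet series `∑ g ^ (-s)` over the genera `g` with `N(g) = 8 (g + 1)`, the
Accola–Maclachlan bound, at its abscissa of convergence `1`: it diverges there, it tends to infinity
at least as fast as `c log (1 / (s - 1))`, and `H` has more than `K x / (log x) ^ (1 + δ)` elements
up to `x` for arbitrarily large `x`.

Idea: for a prime `p ≡ -1 (mod lcm(1,…,19))`, `p > 6 · 24!`, the genus `g = 2 p + 1` satisfies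
`N(g) = 8 (g + 1)`. For the sum `G(s)` of `p ^ (-s)` over the primes in a residue class and
`F(s) = - G'(s)`, convexity gives `G(s) - G(t) ≥ (t - s) F(t)` for `s < t`, and `F` has a pole at `1`.
-/

set_option autoImplicit false

open scoped commutatorElement

namespace Pool.Agent.Results.MP_01ebcc_al.DivergesAtOne

/-- `ActsInGenus G g`: the finite group `G` acts faithfully by biholomorphic maps on some closed
Riemann surface of genus `g` (`g ≥ 2`), in the usual combinatorial form given by uniformisation and the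
Riemann existence theorem. There are an orbit genus `h`, a number `r` of branch points and a
generating vector `a₁, b₁, …, a_h, b_h, x₁, …, x_r` of `G`: these elements generate `G`,
`∏ [a_i, b_i] ∏ x_j = 1`, no `x_j` is trivial, and the Riemann–Hurwitz formula
`2 g - 2 = |G| (2 h - 2 + ∑ (1 - 1 / ord(x_j)))` holds. -/
def ActsInGenus (G : Type) [Group G] (g : ℕ) : Prop :=
  ∃ (h r : ℕ) (a b : Fin h → G) (x : Fin r → G),
    Subgroup.closure (Set.range a ∪ Set.range b ∪ Set.range x) = ⊤ ∧
    (List.ofFn fun i => ⁅a i, b i⁆).prod * (List.ofFn x).prod = 1 ∧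
    (∀ j, x j ≠ 1) ∧
    2 * (g : ℚ) - 2 = (Nat.card G : ℚ) * (2 * (h : ℚ) - 2 + ∑ j, (1 - 1 / (orderOf (x j) : ℚ)))

/-- The set of orders of finite groups acting on closed Riemann surfaces of genus `g`. -/
def actingOrders (g : ℕ) : Set ℕ :=
  {n | ∃ (G : Type) (_ : Group G), Finite G ∧ ActsInGenus G g ∧ Nat.card G = n}

/-- `N g`: the largest order of an automorphism group of a closed Riemann surface of genus `g`. -/
noncomputable def N (g : ℕ) : ℕ := sSup (actingOrders g)

/-- The set of genera `g ≥ 2` with `N(g) = 8 (g + 1)`. -/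
def H : Set ℕ := {g | 2 ≤ g ∧ N g = 8 * (g + 1)}

/-- The abscissa of (absolute) convergence of the Dirichlet series `∑_{g ∈ H} g ^ (-s)` is `s₀ = 1`;
the series diverges at `s = s₀`, and its sum is at least `c log (1 / (s - 1)) - C` for
`1 < s ≤ 2`, for some `c > 0` and `C`. In particular `H` is not thin: for all `K`, all `δ > 0` and
arbitrarily large `x`, more than `K x / (log x) ^ (1 + δ)` elements of `H` are at most `x`. -/
theorem result :
    LSeries.abscissaOfAbsConv (H.indicator fun _ => (1 : ℂ)) = 1 ∧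
    ¬ Summable (fun g : ℕ => H.indicator (fun g : ℕ => 1 / (g : ℝ)) g) ∧
    (∃ c C : ℝ, 0 < c ∧ ∀ s : ℝ, 1 < s → s ≤ 2 → c * Real.log (1 / (s - 1)) - C ≤
      ∑' g : ℕ, H.indicator (fun g : ℕ => 1 / (g : ℝ) ^ s) g) ∧
    (∀ K δ : ℝ, 0 < δ → ∀ x₀ : ℕ, ∃ x : ℕ, x₀ ≤ x ∧
      K * x / (Real.log x) ^ (1 + δ) < (Set.ncard {g | g ∈ H ∧ g ≤ x} : ℝ)) := by
  classical
  have : NeZero H57R2.AM.MM := ⟨by unfold H57R2.AM.MM; norm_num⟩
  have hH : ∀ p ∈ Pool.Agent.Y518.AM.PC (-1 : ZMod H57R2.AM.MM), 6 * Nat.factorial 24 < p →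
      2 * p + 1 ∈ H := by
    intro p hp hB
    have hdvd : H57R2.AM.MM ∣ p + 1 := by
      have h1 : ((p + 1 : ℕ) : ZMod H57R2.AM.MM) = 0 := by
        push_cast; rw [hp.2]; ring
      exact (ZMod.natCast_eq_zero_iff _ _).mp h1
    exact ⟨by have := hp.1.two_le; omega, H57R2.AM.maxOrder_eq hp.1 hdvd hB⟩
  obtain ⟨c, C, hc, h⟩ := Pool.Agent.Y518.AM.transfer
    (a := (-1 : ZMod H57R2.AM.MM)) isUnit_one.neg H _ hH
  have hdiv := Pool.Agent.Y518.AM.diverges H hc h
  refine ⟨?_, hdiv, ⟨c, C, hc, h⟩, fun K δ hδ x₀ =>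
    Pool.Agent.Y518.AM.not_few H hdiv K δ hδ x₀⟩
  apply le_antisymm
  · refine LSeries.abscissaOfAbsConv_le_of_le_const ⟨1, fun n _ => ?_⟩
    by_cases h : n ∈ H
    · rw [Set.indicator_of_mem h]; simp
    · rw [Set.indicator_of_notMem h]; simp
  · by_contra hlt
    push Not at hlt
    set f : ℕ → ℝ := H.indicator fun _ => (1 : ℝ) with hf
    have hfc : (fun n => ((f n : ℝ) : ℂ)) = H.indicator fun _ => (1 : ℂ) := by
      ext n
      by_cases h : n ∈ H
      · rw [hf, Set.indicator_of_mem h, Set.indicator_of_mem h]; simp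
      · rw [hf, Set.indicator_of_notMem h, Set.indicator_of_notMem h]; simp
    have hsum := LSeries.summable_real_of_abscissaOfAbsConv_lt (f := f) (x := 1)
      (by rw [hfc]; exact_mod_cast hlt)
    apply hdiv
    refine hsum.congr ?_
    intro n
    by_cases h : n ∈ H
    · rw [hf, Set.indicator_of_mem h, Set.indicator_of_mem h, Real.rpow_one]
    · rw [hf, Set.indicator_of_notMem h, Set.indicator_of_notMem h, zero_div]

end Pool.Agent.Results.MP_01ebcc_al.DivergesAtOne
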